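import Pool.Agent.D0H31.DS.Interval
import Pool.Agent.D0H31.DS.FrostBorel

/-! # Interior of dilated sumsets of a set of dimension slightly below `2/n` -/

set_option autoImplicit false

open MeasureTheory Set

namespace Pool.Agent.Results.MP_e5d0a4_an.DilatedSumsets

/-- The dilated sumset `t₀ A + t₁ A + ... + t_{n-1} A`. -/
def dilatedSumset (n : ℕ) (t : Fin n → ℝ) (A : Set ℝ) : Set ℝ :=
  {z | ∃ a : Fin n → ℝ, (∀ i, a i ∈ A) ∧ z = ∑ i, t i * a i}

open Pool.Agent.D0H31.DS in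
/-- the case `n = d + 2` -/
lemma main_case (d : ℕ) (hd : 1 ≤ d) {A : Set ℝ} (hA : MeasurableSet A)
    (hdim : ENNReal.ofReal (aa d - eps d) < dimH A) :
    ∃ t : Fin (d + 2) → ℝ, t 0 = 1 ∧ ∃ u v : ℝ, u < v ∧ Ioo u v ⊆ dilatedSumset (d + 2) t A := by
  have hs : 0 < aa d - eps d := by linarith [eps_lt_aa hd]
  -- localisation
  obtain ⟨j, hj⟩ : ∃ j : ℤ, ENNReal.ofReal (aa d - eps d) < dimH (A ∩ Icc (j:ℝ) (j + 1)) := by
    have h1 : A = ⋃ j : ℤ, A ∩ Icc (j:ℝ) (j + 1) := by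
      ext x
      rw [Set.mem_iUnion]
      constructor
      · intro hx
        exact ⟨⌊x⌋, hx, Int.floor_le x, (Int.lt_floor_add_one x).le⟩
      · rintro ⟨_, hx, _⟩
        exact hx
    rw [h1, dimH_iUnion, lt_iSup_iff] at hdim
    exact hdim
  set B : Set ℝ := (fun y => y + (j:ℝ)) ⁻¹' (A ∩ Icc (j:ℝ) (j + 1)) with hB
  have hBm : MeasurableSet B := (measurable_add_const (j:ℝ)) (hA.inter measurableSet_Icc)
  have hBI : B ⊆ Icc 0 1 := by
    intro y hy
    have h1 : y + j ∈ Icc (j:ℝ) (j + 1) := hy.2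
    constructor
    · linarith [h1.1]
    · linarith [h1.2]
  have hBA : ∀ y ∈ B, y + j ∈ A := fun y hy => hy.1
  have hBdim : ENNReal.ofReal (aa d - eps d) < dimH B := by
    have h1 : (fun y => y + (j:ℝ)) '' B = A ∩ Icc (j:ℝ) (j + 1) :=
      Set.image_preimage_eq _ (fun x => ⟨x - j, sub_add_cancel x (j:ℝ)⟩)
    have hiso : Isometry fun y : ℝ => y + (j:ℝ) := by
      refine Isometry.of_dist_eq fun x y => ?_
      rw [Real.dist_eq, Real.dist_eq]
      congr 1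
      ring
    rw [← hiso.dimH_image, h1]
    exact hj
  obtain ⟨K, hKB, hK, μ, hμ, hμK, C, hC, hF⟩ := frostman_borel hs hBm hBI hBdim
  have hμI : μ (Icc (0:ℝ) 1)ᶜ = 0 :=
    measure_mono_null (Set.compl_subset_compl.mpr (hKB.trans hBI)) hμK
  obtain ⟨T, hT, t, z, hz⟩ := interval_main hd hμI hC hF hK hμK
  have hT0 : 0 < T := by linarith [hT.1]
  set c : ℝ := (j:ℝ) * (1 + ∑ i, t i / T) with hc
  refine ⟨Fin.cons 1 fun i => t i / T, rfl, ?_⟩
  have hcont : Continuous fun w : ℝ => T * (w - c) := by fun_prop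
  have hopen : IsOpen ((fun w : ℝ => T * (w - c)) ⁻¹' interior {z : ℝ | ∃ x₀ ∈ K,
      ∃ x : Fin (d + 1) → ℝ, (∀ i, x i ∈ K) ∧ z = T * x₀ + ∑ i, t i * x i}) :=
    isOpen_interior.preimage hcont
  have hmem : z / T + c ∈ ((fun w : ℝ => T * (w - c)) ⁻¹' interior {z : ℝ | ∃ x₀ ∈ K,
      ∃ x : Fin (d + 1) → ℝ, (∀ i, x i ∈ K) ∧ z = T * x₀ + ∑ i, t i * x i}) := by
    rw [Set.mem_preimage]
    have : T * (z / T + c - c) = z := by field_simp; ring
    rw [this]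
    exact hz
  obtain ⟨r, hr, hball⟩ := Metric.isOpen_iff.mp hopen _ hmem
  refine ⟨z / T + c - r, z / T + c + r, by linarith, ?_⟩
  rw [← Real.ball_eq_Ioo]
  refine hball.trans ?_
  intro w hw
  obtain ⟨x₀, hx₀, x, hx, hwx⟩ := interior_subset (Set.mem_preimage.mp hw)
  refine ⟨Fin.cons (x₀ + j) fun i => x i + j, ?_, ?_⟩
  · intro i
    refine Fin.cases ?_ (fun i => ?_) i
    · rw [Fin.cons_zero]
      exact hBA x₀ (hKB hx₀)
    · rw [Fin.cons_succ]
      exact hBA (x i) (hKB (hx i))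
  · rw [Fin.sum_univ_succ]
    simp only [Fin.cons_zero, Fin.cons_succ]
    have h1 : ∑ i, t i / T * (x i + j) = (∑ i, t i * x i) / T + j * ∑ i, t i / T := by
      rw [Finset.sum_div, Finset.mul_sum, ← Finset.sum_add_distrib]
      exact Finset.sum_congr rfl fun i _ => by ring
    rw [h1]
    have h2 : w = (T * x₀ + ∑ i, t i * x i) / T + c := by
      rw [← hwx]
      field_simp
      ring
    rw [h2, hc, add_div, mul_div_cancel_left₀ _ hT0.ne']
    ring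

/-- For every `n ≥ 3` there is `ε > 0` such that every Borel set `A ⊆ ℝ` with Hausdorff dimension
greater than `2/n - ε` has coefficients `t₀ = 1, t₁, ..., t_{n-1}` for which
`t₀ A + t₁ A + ... + t_{n-1} A` contains a nonempty open interval. -/
theorem result : ∀ n : ℕ, ∀ hn : 3 ≤ n, ∃ ε : ℝ, 0 < ε ∧ ε < 2 / n ∧
    ∀ A : Set ℝ, MeasurableSet A → ENNReal.ofReal (2 / n - ε) < dimH A →
      ∃ t : Fin n → ℝ, t ⟨0, by omega⟩ = 1 ∧
        ∃ u v : ℝ, u < v ∧ Ioo u v ⊆ dilatedSumset n t A := by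
  intro n hn
  obtain ⟨d, rfl⟩ : ∃ d, n = d + 2 := ⟨n - 2, by omega⟩
  have hd : 1 ≤ d := by omega
  have haa : (2:ℝ) / ((d + 2 : ℕ) : ℝ) = Pool.Agent.D0H31.DS.aa d := by
    unfold Pool.Agent.D0H31.DS.aa
    push_cast
    rfl
  refine ⟨Pool.Agent.D0H31.DS.eps d, Pool.Agent.D0H31.DS.eps_pos hd, ?_, ?_⟩
  · rw [haa]
    exact Pool.Agent.D0H31.DS.eps_lt_aa hd
  · intro A hA hdim
    rw [haa] at hdim
    exact main_case d hd hA hdim

end Pool.Agent.Results.MP_e5d0a4_an.DilatedSumsets
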